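import Pool.Agent.Run7.h947.IW.SplitK
import Pool.Agent.Run7.h947.IW.Lay
import Pool.Agent.Results.MP_a4986b_nt.RankGrowthGap

/-!
# A criterion at two layers for the second Iwasawa cohomology of `ℤ_p(1)` in abelian extensions `L / K`

`Qb` is an algebraic closure of `ℚ`, number fields are finite subextensions of `Qb / ℚ`, and `p` is an
odd prime. For a number field `F` let `h(F)` be the order of `Pic(O_F[1/p]) / p`, that is, the largest
degree of an abelian extension of `F` of exponent `p` which is unramified everywhere and in which all primes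
above `p` split completely; `DegLeI p (splitAbove p) F C` says `h(F) ≤ C`. The group `H²(O_{F,S}, ℤ_p(1))`,
`S = {p, ∞}`, is an extension of the kernel of `⨁_{v | p} ℤ_p → ℤ_p` by `Pic(O_F[1/p]) ⊗ ℤ_p`, and the number
of primes above `p` in the cyclotomic `ℤ_p`-extension is finite. So Q1 holds for `L / K`, `T = ℤ_p(1)` and
`S = {p, ∞}` if and only if the numbers `h(L R)` are bounded, for the layers `L R` of the cyclotomic
`ℤ_p`-extension of `L` (`MuH2 p L`).

Let `K` be any number field, let `L / K` be a finite abelian extension (`L / ℚ` need not be Galois), as on the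
page of the problem, and let `d ≥ 1`. The condition `TwoLayers p d L` says that there are layers `R ≤ R'` such
that the degree of `R` is at least the largest power of `p` which divides `[N : ℚ]`, for a finite Galois
extension `N / ℚ` which contains `L`, and

  `h(L R') < p ^ (d ([L R' : L] - [L R : L])) h(L R)`,

that is, that the `p`-rank of `Pic(O[1/p])` grows by less than `d ([L R' : L] - [L R : L])`.

1. Q1 holds for `L` if and only if it holds for all `E` between `K` and `L` which are cyclic over `K`, of a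
   degree `n` prime to `p` such that the order of `p` modulo `n` is less than `d`, and `TwoLayers p d L`.
2. If the order of `p` modulo `n` is at least `d` for all divisors `n > 1` of `[L : K]` which are prime
   to `p`, then Q1 holds for `L` if and only if it holds for `K` and `TwoLayers p d L`.

So if Q1 holds for the small fields `E` in 1 and not for `L`, then
`rank_p Pic(O_{L_n'}[1/p]) - rank_p Pic(O_{L_n}[1/p]) ≥ d (p^n' - p^n)` for all large `n' ≥ n`. For
example let `K` be abelian over `ℚ`, so that Q1 holds for `K` (Ferrero and Washington), and let `L / K` be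
cyclic of prime degree `l ≠ p`, and `f` the order of `p` modulo `l`. Then Q1 holds for `L` if and only if the
rank of one layer exceeds the rank of a previous one by less than `f (p^n' - p^n)`.

Proof. The gap theorem `Run7.h947.IW.gapk_growth` for the decomposition groups above `p` and the inertia groups
at the other primes; the condition on `R` says that the primes above `p` of `L R` are not decomposed
in the higher layers (`Run7.h947.IW.split_total'`). The converse uses that the layers exist
(`Run7.h947.IW.exists_layer`).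
-/

set_option autoImplicit false

namespace Pool.Agent.Results.MP_519cc8_nt.AbelianRankGap

open IntermediateField Module Pool.Agent.Q60.MU Pool.Agent.W5h77.MB Pool.Agent.W5h33.DF Run7.h947.IW
open Pool.Agent.Results.MP_a4986b_nt.RankGrowthGap (IsFiniteGaloisOver IsAbelianOver SmallFields deg
  Above normal_of detects deg_eq)

/-- There is a bound for the degrees of the abelian extensions of exponent `p` of the layers of the
cyclotomic `ℤ_p`-extension of `F` which are unramified everywhere and in which all primes above `p` split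
completely. -/
def MuH2 (p : ℕ) (F : IntermediateField ℚ Qb) : Prop := MuI p (splitAbove p) F

/-- `h(L R') ≤ C`, `h(L R) ≥ E + 1` and `C < p ^ (d ([L R' : L] - [L R : L])) (E + 1)`. -/
def SmallGrowth (p d : ℕ) (L R R' : IntermediateField ℚ Qb) : Prop :=
  ∃ C E, DegLeI p (splitAbove p) (L ⊔ R') C ∧ ¬ DegLeI p (splitAbove p) (L ⊔ R) E ∧
    C < p ^ (d * (deg L (L ⊔ R') - deg L (L ⊔ R))) * (E + 1)

/-- There are layers `R ≤ R'` between which the growth is small; the degree `p ^ m` of `R` is at least the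
largest power of `p` which divides the degree of a finite Galois extension of `ℚ` which contains `L`. -/
def TwoLayers (p d : ℕ) (L : IntermediateField ℚ Qb) : Prop :=
  ∃ (m n : ℕ) (R R' : IntermediateField ℚ Qb), IsLayer p m R ∧ IsLayer p n R' ∧ R ≤ R' ∧
    Above p m L ∧ SmallGrowth p d L R R'

variable {p : ℕ} [hp : Fact p.Prime] {K L : IntermediateField ℚ Qb}

omit hp in
theorem not_zero {I : ValuationSubring Qb → Subgroup Gal(Qb/ℚ)} (E : IntermediateField ℚ Qb)
    [FiniteDimensional ℚ E] : ¬ DegLeI p I E 0 := by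
  intro h
  have hfix : ∀ σ ∈ E.fixingSubgroup, ∀ x ∈ E, σ x = x := fun σ hσ x hx =>
    (IntermediateField.mem_fixingSubgroup_iff _ _).1 hσ x hx
  have h1 := h E le_rfl inferInstance (fun σ hσ x hx => by rwa [hfix σ hσ x hx])
    (fun σ hσ τ hτ x hx => by rw [hfix τ hτ x hx, hfix σ hσ x hx, hfix τ hτ x hx])
    (fun σ hσ x hx => hfix _ (pow_mem hσ p) x hx) (fun A σ _ hσ x hx => hfix σ hσ x hx)
  rw [zero_mul] at h1
  exact absurd finrank_pos (not_lt.2 h1)

theorem twoLayers_of (hp2 : p ≠ 2) [FiniteDimensional ℚ L] {d : ℕ} (hd : 0 < d) (h : MuH2 p L) :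
    TwoLayers p d L := by
  obtain ⟨C, hC⟩ := h
  set N := normalClosure ℚ L Qb with hN
  have hLN : L ≤ N := IntermediateField.le_normalClosure L
  have hfN : FiniteDimensional ℚ N := by rw [hN]; infer_instance
  have hnN : Normal ℚ N := normalClosure.normal ℚ L Qb
  have hgN : IsGalois ℚ N := { to_isSeparable := inferInstance, to_normal := hnN }
  obtain ⟨R, hR⟩ := exists_layer hp.out hp2 (finrank ℚ N)
  obtain ⟨S, hS⟩ := exists_layer hp.out hp2 (finrank ℚ L * (C + deg L (L ⊔ R)))
  obtain ⟨n, hR'⟩ := layer_sup hR hS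
  have hfR := layer_fd hp.out hR
  have hfS := layer_fd hp.out hS
  refine ⟨_, n, R, R ⊔ S, hR, hR', le_sup_left, ⟨N, hLN, hfN, hgN, ?_⟩, C, 0, hC _ _ hR', not_zero _, ?_⟩
  · have h1 : finrank ℚ N < p ^ finrank ℚ N := Nat.lt_pow_self hp.out.one_lt
    have h2 : p ^ finrank ℚ N ≤ p ^ (finrank ℚ N + 1) :=
      Nat.pow_le_pow_right hp.out.pos (Nat.le_succ _)
    exact Nat.not_dvd_of_pos_of_lt finrank_pos (h1.trans_le h2)
  · have h1 : C + deg L (L ⊔ R) ≤ deg L (L ⊔ (R ⊔ S)) := by
      conv_rhs => rw [deg]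
      rw [Nat.le_div_iff_mul_le finrank_pos]
      have h2 : finrank ℚ S ≤ finrank ℚ ↥(L ⊔ (R ⊔ S)) :=
        IntermediateField.finrank_le_of_le_right (le_sup_right.trans le_sup_right)
      rw [hS.1] at h2
      have h3 : finrank ℚ L * (C + deg L (L ⊔ R)) < p ^ (finrank ℚ L * (C + deg L (L ⊔ R))) :=
        Nat.lt_pow_self hp.out.one_lt
      calc (C + deg L (L ⊔ R)) * finrank ℚ L = finrank ℚ L * (C + deg L (L ⊔ R)) := mul_comm _ _
        _ ≤ _ := h3.le.trans h2
    have h4 : C ≤ d * (deg L (L ⊔ (R ⊔ S)) - deg L (L ⊔ R)) :=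
      (by omega : C ≤ deg L (L ⊔ (R ⊔ S)) - deg L (L ⊔ R)).trans (Nat.le_mul_of_pos_left _ hd)
    rw [zero_add, mul_one]
    exact (Nat.lt_pow_self hp.out.one_lt).trans_le (Nat.pow_le_pow_right hp.out.pos h4)

theorem criterion (hp2 : p ≠ 2) (hL : IsFiniteGaloisOver K L) {d : ℕ} (hd : 0 < d)
    (𝓔 : Set (IntermediateField ℚ Qb)) (h𝓔 : ∀ E ∈ 𝓔, K ≤ E ∧ E ≤ L) (hdet : DetectsOver p d K L 𝓔) :
    MuH2 p L ↔ (∀ E ∈ 𝓔, MuH2 p E) ∧ TwoLayers p d L := by
  have hfL := hL.2.1
  refine ⟨fun h => ⟨fun E hE => muI_down (h𝓔 E hE).2 h, twoLayers_of hp2 hd h⟩, ?_⟩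
  rintro ⟨h1, m, n, R, R', hR, hR', hRR, ⟨N, hLN, hfN, hgN, hN⟩, C, E, hC, hE, hCE⟩
  exact (gapk_growth hp2 (split_conj p) (split_le p) hL.1 (normal_of hL.2.2) 𝓔 h𝓔
    hdet hR hR' hRR (split_total' hp2 hLN hR hN) hC hE hCE).2 h1

theorem result (p : ℕ) (hp2 : p ≠ 2) [Fact p.Prime] (K L : IntermediateField ℚ Qb)
    (hL : IsFiniteGaloisOver K L) (hab : IsAbelianOver K L) (d : ℕ) (hd : 0 < d) :
    (MuH2 p L ↔ (∀ E ∈ SmallFields p d K L, MuH2 p E) ∧ TwoLayers p d L) ∧
    ((∀ n, 1 < n → n ∣ deg K L → ¬ p ∣ n → d ≤ orderOf (p : ZMod n)) →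
      (MuH2 p L ↔ MuH2 p K ∧ TwoLayers p d L)) := by
  have hfL := hL.2.1
  have h2 := criterion hp2 hL hd (SmallFields p d K L) (fun E hE => ⟨hE.2.1.1, hE.1⟩)
    (detects hL hab d)
  refine ⟨h2, fun hord => ⟨fun h3 => ⟨muI_down hL.1 h3, (h2.1 h3).2⟩, fun h3 => h2.2 ⟨?_, h3.2⟩⟩⟩
  rintro E ⟨hEK, hcyc, hpE, hsm⟩
  have hfK : FiniteDimensional ℚ K := fd_of_le hL.1
  have hfE : FiniteDimensional ℚ E := fd_of_le hEK
  have hdE := deg_eq hcyc.1
  have hdK := deg_eq hL.1
  have hdvd : deg K E ∣ deg K L := by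
    rw [hdE, hdK, ← Subgroup.relIndex_mul_relIndex L.fixingSubgroup E.fixingSubgroup K.fixingSubgroup
      (fixingSubgroup_le hEK) (fixingSubgroup_le hcyc.1)]
    exact Dvd.intro_left _ rfl
  have hd0 : deg K E ≠ 0 := by
    rw [hdE]
    intro h
    have h4 := Subgroup.relIndex_mul_index (fixingSubgroup_le hcyc.1)
    rw [h, zero_mul] at h4
    exact index_ne_zero' E h4.symm
  have h5 : deg K E = 1 := by
    by_contra hne
    exact absurd (hord _ (by omega) hdvd hpE) (not_le.2 hsm)
  rw [hdE, Subgroup.relIndex_eq_one] at h5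
  have h6 : E = K := by
    apply le_antisymm _ hcyc.1
    have h7 : fixedField E.fixingSubgroup ≤ fixedField K.fixingSubgroup := fixedField_le h5
    rwa [InfiniteGalois.fixedField_fixingSubgroup, InfiniteGalois.fixedField_fixingSubgroup] at h7
  rw [h6]
  exact h3.1

end Pool.Agent.Results.MP_519cc8_nt.AbelianRankGap
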