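import Pool.Agent.Run7.h947.IW.Split

/-!
# `H²_Iw(𝓞_{K,S}, ℤ_p(1))` and complex conjugation

`Qb` is an algebraic closure of `ℚ`, and number fields are finite subextensions of `Qb / ℚ`. For a
number field `F` and an odd prime `p`, `MuH2 p F` says that there is a bound for the degrees of the
elementary abelian `p`-extensions of the layers `F R` of the cyclotomic `ℤ_p`-extension of `F` which are
unramified and in which the primes above `p` split completely, i.e. for the orders of
`Pic(𝓞_{F R}[1/p]) / p`. As `H²(𝓞_{F R}[1/p], μ_p)` is an extension of a subgroup of the sum of the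
Brauer groups `ℤ/p` at the primes above `p`, whose number is bounded, by `Pic(𝓞_{F R}[1/p]) / p`, the lemma
of Nakayama says that `MuH2 p F` holds if and only if `H²_Iw(𝓞_{F,S}, ℤ_p(1))` is finitely generated over
`ℤ_p`, `S = {p, ∞}`. So `MuH2 p F` is Q1 for `K = L = F`, `T = ℤ_p(1)`, `S = {p, ∞}`. (All primes are
finitely decomposed in the cyclotomic `ℤ_p`-extension, so larger `S` give the same condition.)

* For every Galois number field `N` there is a largest subfield `E₀` which is totally real or CM, and
  Q1 holds for `ℤ_p(1)` over `N` if and only if it holds over `N ∩ ℝ` and over `E₀`, for each embedding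
  of `N` in `ℂ`. If `N` has no CM subfield, then it holds over `N` if and only if it holds over `N ∩ ℝ`.
* It holds over `N` if and only if it holds over those subfields `M` of `N` such that `Aut(M)` is
  a group of fixed point free automorphisms of an `𝔽_p`-vector space, and `M` has a real embedding, or is
  a CM field whose degree is prime to `p`.
* Hence Q1 for `ℤ_p(1)` and all number fields is true if and only if it is true for all these fields
  `M`. By the well-known reduction to the field `K(T/π, μ_p)`, which trivializes `T/π` and `ℤ/p(1)`,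
  this is then the case for all `T`.

This is the version for the present problem of the theorem of helper947 first handed in for
`MP_a4986b_nt` (`MP_a4986b_nt.RealOrCM`, unramified extensions); his library has the reduction theorem
for all conjugation invariant families of local conditions at the primes.

Proof. Let `c` be a complex conjugation. On a simple `𝔽_p`-representation of `Gal(N / ℚ)` it has a nonzero
fixed vector, or it is `-1`, and then the commutators `[g, c]` are in the kernel. A vector whose orbit
is as small as possible among those whose stabilizer contains `c` (has index prime to `p`) has a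
stabilizer which has a free automorphism group. The reduction theorem for detecting subfields applies as
all primes are finitely decomposed in the cyclotomic `ℤ_p`-extension.
-/

set_option autoImplicit false

namespace Pool.Agent.Results.MP_519cc8_nt.RealOrCM

open IntermediateField Module Pool.Agent.Q60.MU Pool.Agent.W5h77.MB Run7.h947.IW
open Pool.Agent.X310.Mu (comms)

/-- There is a bound for the degrees of the abelian extensions of exponent `p` of the layers of the
cyclotomic `ℤ_p`-extension of `F` which are unramified and in which the primes above `p` split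
completely, that is, for the orders of the groups `Pic(𝓞[1/p]) / p` of the layers. -/
def MuH2 (p : ℕ) (F : IntermediateField ℚ Qb) : Prop := MuI p (splitAbove p) F

/-- `N / ℚ` is a finite Galois extension. -/
def IsFiniteGalois (N : IntermediateField ℚ Qb) : Prop := FiniteDimensional ℚ N ∧ IsGalois ℚ N

/-- `E₀` is the largest subfield of `N` which is totally real or CM, and it is Galois over `ℚ`. -/
def IsLargest (N E₀ : IntermediateField ℚ Qb) : Prop :=
  E₀ ≤ N ∧ IsGalois ℚ E₀ ∧ IsRealOrCM E₀ ∧
    ∀ E : IntermediateField ℚ Qb, E ≤ N → IsRealOrCM E → E ≤ E₀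

/-- `N` has no CM subfield. -/
def NoCM (N : IntermediateField ℚ Qb) : Prop := ∀ E : IntermediateField ℚ Qb, E ≤ N → ¬ IsCM E

/-- The automorphism group of `M` acts freely on a vector space over `𝔽_p`, and `M` has a real embedding
or is a CM field of degree prime to `p`. -/
def Special (p : ℕ) (M : IntermediateField ℚ Qb) : Prop :=
  FreeAut p M ∧ (HasRealEmbedding M ∨ (IsCM M ∧ ¬ p ∣ finrank ℚ M))

/-- The statement about complex conjugation. -/
def RealCriterion (p : ℕ) : Prop :=
  ∀ (ι : Qb →+* ℂ) (N : IntermediateField ℚ Qb), IsFiniteGalois N →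
    (∃ E₀, IsLargest N E₀ ∧ (MuH2 p N ↔ MuH2 p (N ⊓ realSub ι) ∧ MuH2 p E₀)) ∧
    (NoCM N → (MuH2 p N ↔ MuH2 p (N ⊓ realSub ι)))

theorem result (p : ℕ) (hp : p.Prime) (hp2 : p ≠ 2) :
    RealCriterion p ∧
    (∀ N : IntermediateField ℚ Qb, IsFiniteGalois N →
      (MuH2 p N ↔ ∀ M : IntermediateField ℚ Qb, M ≤ N → Special p M → MuH2 p M)) ∧
    ((∀ F : IntermediateField ℚ Qb, FiniteDimensional ℚ F → MuH2 p F) ↔
      ∀ M : IntermediateField ℚ Qb, FiniteDimensional ℚ M → Special p M → MuH2 p M) := by
  have hpf : Fact p.Prime := ⟨hp⟩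
  have hloc : ∀ N : IntermediateField ℚ Qb, IsFiniteGalois N → (MuH2 p N ↔
      ∀ M : IntermediateField ℚ Qb, M ≤ N → Special p M → MuH2 p M) := by
    rintro N ⟨hNf, hNg⟩
    refine ⟨fun h M hM _ => downI hp N M hM h, fun h => ?_⟩
    obtain ⟨ι⟩ := exists_iota
    obtain ⟨c, hc, hcc⟩ := exists_conj ι
    refine reduceN hp (split_conj p) (split_le p) N ?_
    intro S _ _ _ τ hτ hs
    have hnt := hs.1
    rcases conj_cases τ hcc with h1 | h1
    · obtain ⟨v, hv, h2, h3, h4⟩ := vec_real τ hτ hc h1
      exact ⟨v, hv, h _ h2 ⟨h3, Or.inl h4⟩⟩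
    · obtain ⟨v, hv, h2, h3, h4, h5⟩ := vec_cm τ hp2 hτ hc hcc h1
      exact ⟨v, hv, h _ h2 ⟨h3, Or.inr ⟨h4, h5⟩⟩⟩
  refine ⟨fun ι N hN => ?_, hloc, ⟨fun h M hM _ => h M hM, fun h => ?_⟩⟩
  · obtain ⟨hNf, hNg⟩ := hN
    obtain ⟨c, hc, hcc⟩ := exists_conj ι
    obtain ⟨E₀, hfix, hle, hg, hrc, hmax, hcm⟩ := exists_E0 ι hc hcc N
    have hreal := fix_real (K := N) hc
    have key : ∀ 𝓔 : Set (IntermediateField ℚ Qb), N ⊓ realSub ι ∈ 𝓔 → (c ∈ E₀.fixingSubgroup ∨ E₀ ∈ 𝓔) →
        (∀ E ∈ 𝓔, E ≤ N) → (∀ E ∈ 𝓔, MuH2 p E) → MuH2 p N := by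
      intro 𝓔 h1 h2 h3 h4
      refine detectI hp (split_conj p) (split_le p) N 𝓔 h3 ?_ h4 N le_rfl
      intro S _ _ _ τ hτ hs
      have hnt := hs.1
      have hEfix : ∀ (v : S) (x : Gal(Qb/ℚ)), τ x v = v → ∀ g ∈ N.fixingSubgroup ⊔ Subgroup.zpowers x,
          τ g v = v := by
        intro v x hx
        have h5 : N.fixingSubgroup ⊔ Subgroup.zpowers x ≤ stab τ v := by
          rw [sup_le_iff, Subgroup.zpowers_le]
          exact ⟨fun g hg => hτ g hg v, hx⟩
        exact fun g hg => h5 hg
      rcases conj_cases τ hcc with ⟨v, hv, hcv⟩ | h5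
      · refine ⟨_, h1, v, hv, ?_⟩
        rw [hreal]
        exact hEfix v c hcv
      · obtain ⟨v, hv⟩ := exists_ne (0 : S)
        have h6 : ∀ g ∈ E₀.fixingSubgroup, τ g v = v := by
          rw [hfix]
          have h7 : N.fixingSubgroup ⊔ comms c ≤ stab τ v := by
            rw [sup_le_iff]
            exact ⟨fun g hg => hτ g hg v, fun g hg => comms_triv τ hcc h5 g hg v⟩
          exact fun g hg => h7 hg
        rcases h2 with h2 | h2
        · refine ⟨_, h1, v, hv, ?_⟩
          rw [hreal]
          exact hEfix v c (h6 c h2)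
        · exact ⟨_, h2, v, hv, h6⟩
    refine ⟨⟨E₀, ⟨hle, hg, hrc, hmax⟩, ⟨fun h => ⟨downI hp N _ inf_le_left h, downI hp N _ hle h⟩, ?_⟩⟩,
      fun h => ⟨fun h1 => downI hp N _ inf_le_left h1, fun h1 => ?_⟩⟩
    · rintro ⟨h1, h2⟩
      refine key {N ⊓ realSub ι, E₀} (by simp) (Or.inr (by simp)) ?_ ?_
      · rintro E (rfl | rfl)
        · exact inf_le_left
        · exact hle
      · rintro E (rfl | rfl)
        · exact h1
        · exact h2
    · refine key {N ⊓ realSub ι} rfl (Or.inl (hcm h)) ?_ ?_
      · rintro E rfl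
        exact inf_le_left
      · rintro E rfl
        exact h1
  · intro F hF
    obtain ⟨N, hFN, hNf, hNg⟩ := exists_closure F hF
    refine downI hp N F hFN ((hloc N ⟨hNf, hNg⟩).2 fun M hM h1 => h M ?_ h1)
    exact Submodule.finiteDimensional_of_le (S₁ := Subalgebra.toSubmodule M.toSubalgebra)
      (S₂ := Subalgebra.toSubmodule N.toSubalgebra) hM

end Pool.Agent.Results.MP_519cc8_nt.RealOrCM
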