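import Pool.Agent.Run7.h759.UD.Coef
import Pool.Agent.Run7.h759.UD.Ab3
import Pool.Agent.Run7.h759.UD.Sum4

/-!
# `H²` of Iwasawa cohomology, finite coefficient modules and everywhere unramified characters

`Qb` is an algebraic closure of `ℚ`, and number fields are finite subextensions of `Qb / ℚ`. Let `p` be an odd prime. For a
representation `T` as in the question and `A = (T / π)^* (1)`, the module `H²_Iw(O_{L,S}, T)` is torsion with `μ = 0` if and
only if the groups of the classes in `H¹(L_n, A)` which are unramified outside `p` and trivial at the
primes above `p` are bounded (`ShaBounded p (SplitAt p) L A ρ`; Poitou-Tate duality, the primes of `S` not above `p` are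
finitely decomposed and do not matter). For `T = ℤ_p(1)`, `A = ℤ / p`, these are the homomorphisms of the
class group modulo the primes above `p`.

(1) The following are equivalent: boundedness for all number fields `L` and all finite modules `A`; boundedness for the
fields `M` and the modules `A` over `Gal(N / M)` without invariants, for the Galois extensions `N / M` of
prime degree `ℓ ≠ p` which are unramified at all places, where `N / ℚ` is Galois and all primes which ramify in
`N / ℚ` or lie above a given number `m` split completely in `N / M` (so it is enough to consider the `T` which are sums of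
`ℤ_p(1)`, twisted by everywhere unramified characters of prime order `ℓ ≠ p`); boundedness for all
number fields and `A = ℤ / p` (`MuNull p (SplitAt p)`); its relative form for the `N / M` above; the statement that
for each such `N / M` one layer has a small relative part.

(2) For a fixed number field `K` and `T = ℤ_p(1)`: `μ = 0` for all finite abelian `L / K` in which the archimedean places
split completely is equivalent to `μ = 0` for `K` and the relative form for the steps `N / M` inside the
extensions `N / K` of this kind, of degree prime to `p`.
-/

set_option autoImplicit false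

namespace Pool.Agent.Results.MP_519cc8_nt.UnramifiedSteps

open Pool.Agent.Run7.h759.UD

/-- The locally trivial classes with values in finite modules are bounded in the cyclotomic `ℤ_p`-extension of
each number field. -/
def AllCoefficients (p : ℕ) (T : ValuationSubring Qb → Gal(Qb/ℚ) → Prop) : Prop :=
  ∀ L : Fld, IsNF L → ∀ (A : Type) [AddCommGroup A] (ρ : Gal(Qb/ℚ) → A → A), IsCoef p L A ρ →
    ShaBounded p T L A ρ

/-- The same for the modules over `Gal(N / M)` without invariants, for the steps `N / M`. -/
def StepCoefficients (p m : ℕ) (T : ValuationSubring Qb → Gal(Qb/ℚ) → Prop) : Prop :=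
  ∀ ℓ M N, IsStep p m ⊥ ⊥ (fun _ => True) ℓ M N → ∀ (A : Type) [AddCommGroup A]
    (ρ : Gal(Qb/ℚ) → A → A), IsStepCoef p M N A ρ → ShaBounded p T M A ρ

theorem result (p : ℕ) [Fact p.Prime] (hp2 : p ≠ 2) (m : ℕ) (hm : m ≠ 0) :
    [AllCoefficients p (SplitAt p),
      StepCoefficients p m (SplitAt p),
      ∀ L : Fld, IsNF L → MuNull p (SplitAt p) L,
      ∀ ℓ M N, IsStep p m ⊥ ⊥ (fun _ => True) ℓ M N → RelMuNull p (SplitAt p) M N,
      ∀ ℓ M N, IsStep p m ⊥ ⊥ (fun _ => True) ℓ M N → OneSmall p (SplitAt p) ℓ M N].TFAE ∧
    ∀ K : Fld, IsNF K →
      (MuNullAb p (SplitAt p) K (UnramifiedAtInfinity K) ↔ MuNull p (SplitAt p) K ∧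
        ∀ ℓ M N, IsAbStep p m K (UnramifiedAtInfinity K) ℓ M N → RelMuNull p (SplitAt p) M N) ∧
      (MuNullAb p (SplitAt p) K (UnramifiedAtInfinity K) ↔ MuNull p (SplitAt p) K ∧
        ∀ ℓ M N, IsAbStep p m K (UnramifiedAtInfinity K) ℓ M N → OneSmall p (SplitAt p) ℓ M N) :=
  ⟨all_tfae4 p hp2 m hm, fun K hK => arch_split p hp2 m hm hK⟩

end Pool.Agent.Results.MP_519cc8_nt.UnramifiedSteps
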